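import Pool.Agent.helper74.VN.SpecC
import Pool.Agent.helper89.VQ.VSA
import Pool.Agent.helper40.VQ.VCD

/-!
# Project VN (MP_07c750_an), row NAW: re-expansion of a beam
-/

set_option autoImplicit false

open scoped MatrixGroups ContDiff Topology UpperHalfPlane ComplexConjugate ENNReal
open UpperHalfPlane MeasureTheory Filter Set

namespace Pool.Agent.VN

open Pool.Agent.RS Pool.Agent.VQ

noncomputable section

theorem NAW_Dm : Dm (⊥ : Subgroup SL(2, ℝ)) (univ : Set ℍ) := Or.inr ⟨rfl, rfl⟩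

theorem NAW_one (γ : (⊥ : Subgroup SL(2, ℝ))) (z : ℍ) : γ • z = z := by
  have h : γ = 1 := Subtype.ext (Subgroup.mem_bot.1 γ.2)
  rw [h, one_smul]

theorem NAW_FH {φ : ℍ → ℂ} (hc : Continuous φ) (hb : ∃ b : ℝ, ∀ z, φ z ≠ 0 → dist z I ≤ b) : FH ⊥ univ φ := by
  refine ⟨hc, fun γ z => by rw [NAW_one], ?_⟩
  obtain ⟨b, hb⟩ := hb
  exact ⟨b, fun z _ h => hb z h⟩

theorem NAW_bd {φ : ℍ → ℂ} (h : FH ⊥ univ φ) : ∃ b : ℝ, ∀ z, φ z ≠ 0 → dist z I ≤ b := by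
  obtain ⟨b, hb⟩ := h.supp
  exact ⟨b, fun z hz => hb z (mem_univ _) hz⟩

theorem NAW_sub {φ ψ : ℍ → ℂ} (h1 : FH ⊥ univ φ) (h2 : FH ⊥ univ ψ) : FH ⊥ univ (fun z => φ z - ψ z) := by
  obtain ⟨b1, hb1⟩ := NAW_bd h1
  obtain ⟨b2, hb2⟩ := NAW_bd h2
  refine NAW_FH (h1.cont.sub h2.cont) ⟨max b1 b2, fun z hz => ?_⟩
  by_cases h : φ z = 0
  · exact (hb2 z (fun h' => hz (by rw [h, h', sub_zero]))).trans (le_max_right _ _)
  · exact (hb1 z h).trans (le_max_left _ _)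

theorem NAW_mul {φ : ℍ → ℂ} (c : ℂ) (h1 : FH ⊥ univ φ) : FH ⊥ univ (fun z => c * φ z) := by
  obtain ⟨b1, hb1⟩ := NAW_bd h1
  refine NAW_FH (continuous_const.mul h1.cont) ⟨b1, fun z hz => hb1 z (fun h => hz (by rw [h, mul_zero]))⟩

theorem NAW_add {φ ψ : ℍ → ℂ} (h1 : FH ⊥ univ φ) (h2 : FH ⊥ univ ψ) : FH ⊥ univ (fun z => φ z + ψ z) := by
  obtain ⟨b1, hb1⟩ := NAW_bd h1
  obtain ⟨b2, hb2⟩ := NAW_bd h2
  refine NAW_FH (h1.cont.add h2.cont) ⟨max b1 b2, fun z hz => ?_⟩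
  by_cases h : φ z = 0
  · exact (hb2 z (fun h' => hz (by rw [h, h', add_zero]))).trans (le_max_right _ _)
  · exact (hb1 z h).trans (le_max_left _ _)

/-- the Laplacian of a difference -/
theorem NAW_lap {φ ψ : ℍ → ℂ} (h1 : QU.CD 2 φ) (h2 : QU.CD 2 ψ) (z : ℍ) :
    QU.lap (fun z => φ z - ψ z) z = QU.lap φ z - QU.lap ψ z := by
  have hopen : IsOpen {w : ℂ | 0 < w.im} := isOpen_lt continuous_const Complex.continuous_im
  have hat1 : ∀ w : ℂ, 0 < w.im → ContDiffAt ℝ 2 (QU.onC φ) w := fun w hw => h1.contDiffAt (hopen.mem_nhds hw)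
  have hat2 : ∀ w : ℂ, 0 < w.im → ContDiffAt ℝ 2 (QU.onC ψ) w := fun w hw => h2.contDiffAt (hopen.mem_nhds hw)
  have e0 : QU.onC (fun z => φ z - ψ z) = fun w => QU.onC φ w - QU.onC ψ w := rfl
  have e1 : fderiv ℝ (QU.onC (fun z => φ z - ψ z)) =ᶠ[𝓝 (z : ℂ)] fun w => fderiv ℝ (QU.onC φ) w - fderiv ℝ (QU.onC ψ) w := by
    filter_upwards [hopen.mem_nhds (show (z : ℂ) ∈ {w : ℂ | 0 < w.im} from z.im_pos)] with w hw
    rw [e0]
    exact fderiv_fun_sub ((hat1 w hw).differentiableAt (by norm_num)) ((hat2 w hw).differentiableAt (by norm_num))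
  have d1 : DifferentiableAt ℝ (fderiv ℝ (QU.onC φ)) (z : ℂ) :=
    ((hat1 _ z.im_pos).fderiv_right (m := 1) (by norm_num)).differentiableAt (by norm_num)
  have d2 : DifferentiableAt ℝ (fderiv ℝ (QU.onC ψ)) (z : ℂ) :=
    ((hat2 _ z.im_pos).fderiv_right (m := 1) (by norm_num)).differentiableAt (by norm_num)
  unfold QU.lap
  rw [e1.fderiv_eq, fderiv_fun_sub d1 d2]
  simp only [sub_apply]
  rw [← smul_sub]
  congr 1
  ring

theorem NAW_Hop {φ ψ : ℍ → ℂ} (h1 : QU.CD 2 φ) (h2 : QU.CD 2 ψ) (U : ℍ → ℝ) (R : ℝ) (z : ℍ) :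
    Hop U R (fun z => φ z - ψ z) z = Hop U R φ z - Hop U R ψ z := by
  unfold Hop
  rw [NAW_lap h1 h2]
  ring

theorem NAW_nn {F : Set ℍ} (φ : ℍ → ℂ) : 0 ≤ nn F φ := integral_nonneg (fun z => by positivity)

theorem NAW_neg {F : Set ℍ} (φ : ℍ → ℂ) : nn F (fun z => -(Complex.I * φ z)) = nn F φ := by
  unfold nn
  refine integral_congr_ae (Eventually.of_forall fun z => ?_)
  show ‖-(Complex.I * φ z)‖ ^ 2 = ‖φ z‖ ^ 2
  rw [norm_neg, norm_mul, Complex.norm_I, one_mul]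

theorem NAW_nnI {F : Set ℍ} (φ : ℍ → ℂ) : nn F (fun z => Complex.I * φ z) = nn F φ := by
  unfold nn
  refine integral_congr_ae (Eventually.of_forall fun z => ?_)
  show ‖Complex.I * φ z‖ ^ 2 = ‖φ z‖ ^ 2
  rw [norm_mul, Complex.norm_I, one_mul]

/-- the numbers -/
theorem NAW_num (k : ℝ) (hk : 0 < k) : ∃ R0 : ℝ, 2 ≤ R0 ∧ ∀ R : ℝ, R0 ≤ R → 2 * R ^ (-(1 / 4) : ℝ) ≤ k ∧ (∀ η : ℝ, η ≤ 1 / 8 → R ^ (-(1 / 2) + η) ≤ 1 / 4) ∧
    ∃ X : ℝ, 1000 ≤ X ∧ (∀ (x : ℝ) (j : ℕ), x ≤ j / 40 → R ^ x ≤ X ^ j) ∧ (∀ j : ℕ, X ^ j = R ^ ((j : ℝ) / 40)) ∧ Real.log R ≤ 40 * X := by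
  refine ⟨max (1000 ^ 40) ((2 / k) ^ 4), le_max_of_le_left (by norm_num), fun R hR => ?_⟩
  have hR1 : (1000 : ℝ) ^ 40 ≤ R := (le_max_left _ _).trans hR
  have hR2 : (2 / k) ^ 4 ≤ R := (le_max_right _ _).trans hR
  have hRp : 0 < R := lt_of_lt_of_le (by norm_num) hR1
  have hR1' : 1 ≤ R := le_trans (by norm_num) hR1
  have h2k : 0 < 2 / k := by positivity
  refine ⟨?_, ?_, R ^ (1 / 40 : ℝ), ?_, ?_, ?_, ?_⟩
  · have h1 : 2 / k ≤ R ^ (1 / 4 : ℝ) := by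
      have h2 : 2 / k = ((2 / k) ^ 4) ^ (1 / 4 : ℝ) := by
        rw [← Real.rpow_natCast, ← Real.rpow_mul h2k.le]
        norm_num
      rw [h2]
      exact Real.rpow_le_rpow (by positivity) hR2 (by norm_num)
    rw [Real.rpow_neg hRp.le, ← div_eq_mul_inv, div_le_iff₀ (Real.rpow_pos_of_pos hRp _)]
    rw [div_le_iff₀ hk] at h1
    linarith
  · intro η hη
    have h1 : R ^ (-(1 / 2) + η) ≤ R ^ (-(3 / 8) : ℝ) := Real.rpow_le_rpow_of_exponent_le hR1' (by linarith)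
    refine h1.trans ?_
    rw [Real.rpow_neg hRp.le, inv_eq_one_div]
    refine one_div_le_one_div_of_le (by norm_num) ?_
    have h2 : (4 : ℝ) ≤ ((1000 : ℝ) ^ 40) ^ (3 / 8 : ℝ) := by
      rw [← Real.rpow_natCast, ← Real.rpow_mul (by norm_num)]
      have : ((40 : ℕ) : ℝ) * (3 / 8) = ((15 : ℕ) : ℝ) := by norm_num
      rw [this, Real.rpow_natCast]
      norm_num
    exact h2.trans (Real.rpow_le_rpow (by norm_num) hR1 (by norm_num))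
  · have h1 : (1000 : ℝ) = ((1000 : ℝ) ^ 40) ^ (1 / 40 : ℝ) := by
      rw [← Real.rpow_natCast, ← Real.rpow_mul (by norm_num)]
      norm_num
    rw [h1]
    exact Real.rpow_le_rpow (by norm_num) hR1 (by norm_num)
  · intro x j hx
    rw [← Real.rpow_natCast, ← Real.rpow_mul hRp.le]
    exact Real.rpow_le_rpow_of_exponent_le hR1' (by linarith)
  · intro j
    rw [← Real.rpow_natCast, ← Real.rpow_mul hRp.le]
    congr 1
    ring
  · have h1 : Real.log R ≤ R ^ (1 / 40 : ℝ) / (1 / 40) := Real.log_le_rpow_div hRp.le (by norm_num)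
    linarith

theorem NAW_win {k R c : ℝ} (hc : c ≤ 2) (hW : 2 * R ^ (-(1 / 4) : ℝ) ≤ k) (hR : 0 ≤ R) {E : ℝ} (hE : E ∈ Wi c R) : |E| ≤ k := by
  have h0 : 0 ≤ R ^ (-(1 / 4) : ℝ) := Real.rpow_nonneg hR _
  have h1 : c * R ^ (-(1 / 4) : ℝ) ≤ 2 * R ^ (-(1 / 4) : ℝ) := mul_le_mul_of_nonneg_right hc h0
  exact abs_le.mpr ⟨by have := hE.1; linarith, by have := hE.2; linarith⟩

/-- integrability of the integrand of the synthesis -/
theorem NAW_int {k CR : ℝ} (hk : k ≤ 1 / 16) (hVDM : VDM_stmt) (hNFR : ∀ (Γ : Subgroup SL(2, ℝ)) (F : Set ℍ) (B : ℕ → ℝ) (D : Dyn) (K : ℕ) (η m R t : ℝ) (f : SL(2, ℝ) × ℝ → ℂ → ℂ), Dm Γ F → OKN Γ k B D → 0 < η → η ≤ 1 / 4 → 0 ≤ m → R ^ (-(1 / 2) + η) ≤ 1 / 4 → 2 * R ^ (-(1 / 4) : ℝ) ≤ k → 1 ≤ R → FaN Γ k D K η m R t f →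
      ContinuousOn (fun x : (SL(2, ℝ) × ℝ) × ℍ => pF D t f x.1 x.2) {x | |x.1.2| ≤ k} ∧ (∀ p ∈ GW 2 R, ∀ z, ‖pF D t f p z‖ ≤ m ∧ (pF D t f p z ≠ 0 → dist (D.fl p.2 t p.1 • I : ℍ) z ≤ 1 ∧ dist (p.1 • I : ℍ) z ≤ CR * |t| + 1)))
    {Γ : Subgroup SL(2, ℝ)} {F : Set ℍ} {B : ℕ → ℝ} {D : Dyn} {K : ℕ} {η m R t : ℝ}
    {f : SL(2, ℝ) × ℝ → ℂ → ℂ} (hDm : Dm Γ F) (hD : OKN Γ k B D) (hη : 0 < η) (hη4 : η ≤ 1 / 4) (hm : 0 ≤ m)
    (hRη : R ^ (-(1 / 2) + η) ≤ 1 / 4) (hW : 2 * R ^ (-(1 / 4) : ℝ) ≤ k) (hR : 1 ≤ R) (hfa : FaN Γ k D K η m R t f)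
    {v : SL(2, ℝ) × ℝ → ℂ} (hv : FP Γ F v) (z : ℍ) : IntegrableOn (fun q => v q * pF D t f q z) (GW 2 R) mP := by
  obtain ⟨hc, hb⟩ := hNFR Γ F B D K η m R t f hDm hD hη hη4 hm hRη hW hR hfa
  obtain ⟨b, hvb⟩ := hv.bdd
  have hW0 : 0 ≤ R ^ (-(1 / 4) : ℝ) := Real.rpow_nonneg (by linarith) _
  have hGW : MeasurableSet (GW 2 R) := MeasurableSet.univ.prod measurableSet_Icc
  set r0 : ℝ := CR * |t| + 1 + dist z I with hr0
  set S : Set (SL(2, ℝ) × ℝ) := {g : SL(2, ℝ) | dist (g • I : ℍ) I ≤ r0} ×ˢ (Wi 2 R ∩ Icc (-1) 1) with hS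
  have hSc : IsClosed {g : SL(2, ℝ) | dist (g • I : ℍ) I ≤ r0} :=
    isClosed_le ((continuous_id.smul continuous_const).dist continuous_const) continuous_const
  have hSm : MeasurableSet S := hSc.measurableSet.prod (measurableSet_Icc.inter measurableSet_Icc)
  have hSf : mP S < ⊤ := (hVDM Γ F hDm).2.2.2.2 (Wi 2 R) measurableSet_Icc |>.2.2.2.2.2 r0
  have hSG : S ⊆ GW 2 R := fun q hq => ⟨mem_univ _, hq.2.1⟩
  have hcz : ContinuousOn (fun q : SL(2, ℝ) × ℝ => pF D t f q z) (GW 2 R) := by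
    have h1 : ContinuousOn (fun q : SL(2, ℝ) × ℝ => (q, z)) (GW 2 R) := by fun_prop
    exact hc.comp h1 (fun q hq => NAW_win le_rfl hW (by linarith) hq.2)
  have i1 : IntegrableOn (fun q => v q * pF D t f q z) S mP := by
    have : IsFiniteMeasure (mP.restrict S) := ⟨by rw [Measure.restrict_apply_univ]; exact hSf⟩
    refine Integrable.of_bound (hv.meas.aestronglyMeasurable.mul ((hcz.mono hSG).aestronglyMeasurable hSm)) (b * m) ?_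
    refine (ae_restrict_mem hSm).mono (fun q hq => ?_)
    have h2 := (hb q (hSG hq) z).1
    have h3 := hvb q
    show ‖v q * pF D t f q z‖ ≤ b * m
    rw [norm_mul]
    exact mul_le_mul h3 h2 (norm_nonneg _) ((norm_nonneg _).trans h3)
  refine i1.of_forall_sdiff_eq_zero hGW (fun q hq => ?_)
  by_contra h0
  have h1 : pF D t f q z ≠ 0 := fun h => h0 (by show v q * pF D t f q z = 0; rw [h, mul_zero])
  have h2 := ((hb q hq.1 z).2 h1).2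
  apply hq.2
  refine ⟨?_, hq.1.2, ?_⟩
  · show dist (q.1 • I : ℍ) I ≤ r0
    have := dist_triangle (q.1 • I : ℍ) z I
    rw [hr0]
    linarith
  · have := NAW_win le_rfl hW (by linarith) hq.1.2
    rw [abs_le] at this
    exact ⟨by linarith [this.1], by linarith [this.2]⟩

/-- energy localisation outside of the window -/
theorem NAW_loc {R : ℝ} (hR : 0 < R) {E0 : ℝ} (hE0 : E0 ∈ Wi (31 / 16) R) (S : SL(2, ℝ) → Set ℝ) (hS : ∀ g, MeasurableSet (S g)) (D : Set SL(2, ℝ))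
    (q : SL(2, ℝ) × ℝ → ℂ) {Y : ℝ} (hY : 0 ≤ Y)
    (h : ∫⁻ g in D, (∫⁻ E in S g, ENNReal.ofReal ((E - E0) ^ 2) * ‖q (g, E)‖ₑ ^ 2) ∂mG ≤ ENNReal.ofReal Y) :
    (∫⁻ g in D, (∫⁻ E in S g \ Wi 2 R, ‖q (g, E)‖ₑ ^ 2) ∂mG).toReal ≤ 256 * R ^ (1 / 2 : ℝ) * Y := by
  have hc : 0 ≤ 256 * R ^ (1 / 2 : ℝ) := by positivity
  apply ENNReal.toReal_le_of_le_ofReal (mul_nonneg hc hY)
  rw [ENNReal.ofReal_mul hc]
  refine le_trans ?_ (mul_le_mul_right h _)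
  rw [← lintegral_const_mul' _ _ ENNReal.ofReal_ne_top]
  refine lintegral_mono (fun g => ?_)
  show ∫⁻ E in S g \ Wi 2 R, ‖q (g, E)‖ₑ ^ 2 ≤ ENNReal.ofReal (256 * R ^ (1 / 2 : ℝ)) * ∫⁻ E in S g, ENNReal.ofReal ((E - E0) ^ 2) * ‖q (g, E)‖ₑ ^ 2
  rw [← lintegral_const_mul' _ _ ENNReal.ofReal_ne_top]
  refine le_trans (setLIntegral_mono' ((hS g).diff measurableSet_Icc) (g := fun E => ENNReal.ofReal (256 * R ^ (1 / 2 : ℝ)) * (ENNReal.ofReal ((E - E0) ^ 2) * ‖q (g, E)‖ₑ ^ 2)) ?_)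
    (lintegral_mono_set sdiff_subset)
  intro E hE
  rw [← mul_assoc, ← ENNReal.ofReal_mul hc]
  have h1 : 1 ≤ 256 * R ^ (1 / 2 : ℝ) * (E - E0) ^ 2 := by
    set y : ℝ := R ^ (-(1 / 4) : ℝ) with hy
    have hy0 : 0 < y := Real.rpow_pos_of_pos hR _
    have hyy : R ^ (1 / 2 : ℝ) * y ^ 2 = 1 := by
      rw [hy, ← Real.rpow_natCast, ← Real.rpow_mul hR.le, ← Real.rpow_add hR]
      norm_num
    have h2 : (y / 16) ^ 2 ≤ (E - E0) ^ 2 := by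
      have hE2 : E ∉ Icc (-(2 * y)) (2 * y) := hE.2
      rw [mem_Icc, not_and_or, not_le, not_le] at hE2
      have hl : -(31 / 16 * y) ≤ E0 := hE0.1
      have hu : E0 ≤ 31 / 16 * y := hE0.2
      rcases hE2 with h3 | h3
      · nlinarith
      · nlinarith
    have h3 : R ^ (1 / 2 : ℝ) * (y / 16) ^ 2 ≤ R ^ (1 / 2 : ℝ) * (E - E0) ^ 2 := mul_le_mul_of_nonneg_left h2 (by positivity)
    nlinarith
  calc ‖q (g, E)‖ₑ ^ 2 = 1 * ‖q (g, E)‖ₑ ^ 2 := (one_mul _).symm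
    _ ≤ ENNReal.ofReal (256 * R ^ (1 / 2 : ℝ) * (E - E0) ^ 2) * ‖q (g, E)‖ₑ ^ 2 := by
      refine mul_le_mul_left ?_ _
      rw [← ENNReal.ofReal_one]
      exact ENNReal.ofReal_le_ofReal h1

theorem NAW_pk {K : ℕ} {η m R ρ : ℝ} {f : ℂ → ℂ} (h : Pk K η m R ρ f) (hη : R ^ (-(1 / 2) + η) ≤ 1 / 4) :
    Continuous f ∧ ∀ v, f v ≠ 0 → ‖v‖ ≤ 1 / 4 := by
  obtain ⟨A, hA, hs, -, hf⟩ := h
  constructor
  · have e : f = fun v => Complex.exp (((R * ρ * v.re : ℝ) : ℂ) * Complex.I) * A v := funext hf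
    rw [e]
    have hA' := hA.continuous
    fun_prop
  · intro v hv
    refine (hs v (fun h0 => hv ?_)).trans hη
    rw [hf v, h0, mul_zero]

theorem NAW_dist (g : SL(2, ℝ)) (z : ℍ) (h : ‖cd (g⁻¹ • z)‖ ≤ 1 / 4) : dist z (g • I) ≤ 1 / 2 := by
  have h1 := VCD_ge (g⁻¹ • z) (h.trans (by norm_num))
  have h2 : dist (g⁻¹ • z) I = dist z (g • I) := by
    rw [← dist_smul g (g⁻¹ • z) I, smul_inv_smul]
  rw [← h2]
  linarith

theorem NAW_cc (hNPR : NPR_stmt) {ch : ℝ → ℝ} {ζ ζ2 R k s t : ℝ} {B : ℕ → ℝ} {D : Dyn} {p : SL(2, ℝ) × ℝ} (hch : CH ch) (hζ2 : 0 < ζ2) (hζ8 : ζ2 ≤ 1 / 8)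
    (hR : 2 ≤ R) (hOK : OKN ⊥ k B D) (hpk : |p.2| ≤ k) :
    ContinuousOn (fun x : ℝ × ℍ => psi D ch ζ ζ2 R (s + x.1) p x.2) (Icc 0 t ×ˢ univ) ∧
    ContinuousOn (fun x : ℝ × ℍ => QU.lap (psi D ch ζ ζ2 R (s + x.1) p) x.2) (Icc 0 t ×ˢ univ) ∧
    ContinuousOn (fun x : ℝ × ℍ => Er D ch ζ ζ2 R (s + x.1) p (cd ((D.fl p.2 (s + x.1) p.1)⁻¹ • x.2))) (Icc 0 t ×ˢ univ) := by
  have hfl : Continuous (fun r : ℝ => D.fl p.2 r p.1) := by
    have h1 : Continuous (fun r : ℝ => (p.2, r, p.1)) := by fun_prop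
    exact hOK.cfl.comp_continuous h1 (fun r => hpk)
  have hfl1 : Continuous (fun x : ℝ × ℍ => D.fl p.2 (s + x.1) p.1) := hfl.comp (continuous_const.add continuous_fst)
  have hfl2 : Continuous (fun x : ℝ × ℍ => (D.fl p.2 (s + x.1) p.1)⁻¹ • x.2) := hfl1.inv.smul continuous_snd
  have hfl3 : Continuous (fun x : ℝ × ℍ => cd ((D.fl p.2 (s + x.1) p.1)⁻¹ • x.2)) := VCD_cont.comp hfl2
  have hF1 : Continuous (fun x : ℝ × ℍ => (((p, s + x.1), x.2) : ((SL(2, ℝ) × ℝ) × ℝ) × ℍ)) :=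
    (continuous_const.prodMk (continuous_const.add continuous_fst)).prodMk continuous_snd
  have hF2 : Continuous (fun x : ℝ × ℍ => (((p, s + x.1), cd ((D.fl p.2 (s + x.1) p.1)⁻¹ • x.2)) : ((SL(2, ℝ) × ℝ) × ℝ) × ℂ)) :=
    (continuous_const.prodMk (continuous_const.add continuous_fst)).prodMk hfl3
  obtain ⟨c1, c2, -, -, -, c3, -⟩ := hNPR ch ζ ζ2 R k ⊥ B D hch hζ2 hζ8 hR hOK
  have hm1 : ∀ x : ℝ × ℍ, (((p, s + x.1), x.2) : ((SL(2, ℝ) × ℝ) × ℝ) × ℍ) ∈ {x : ((SL(2, ℝ) × ℝ) × ℝ) × ℍ | |x.1.1.2| ≤ k} := fun x => hpk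
  have hm2 : ∀ x : ℝ × ℍ, (((p, s + x.1), cd ((D.fl p.2 (s + x.1) p.1)⁻¹ • x.2)) : ((SL(2, ℝ) × ℝ) × ℝ) × ℂ) ∈ {x : ((SL(2, ℝ) × ℝ) × ℝ) × ℂ | |x.1.1.2| ≤ k} := fun x => hpk
  exact ⟨(c1.comp_continuous hF1 hm1).continuousOn, (c2.comp_continuous hF1 hm1).continuousOn, (c3.comp_continuous hF2 hm2).continuousOn⟩

theorem NAW_proof (hNEN : NEN_stmt) (hNFD : NFD_stmt) (hNFB : NFB_stmt) (hNFM : NFM_stmt) (hND0 : ND0_stmt)
    (hNQA : NQA_stmt) (hNEL : NEL_stmt) (hNLE : NLE_stmt) (hNNP : NNP_stmt) (hNOX : NOX_stmt) (hNRM : NRM_stmt) (hNPR : NPR_stmt)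
    (hNUB : NUB_stmt) (hNQS : NQS_stmt) (hNFR : NFR_stmt) (hVDM : VDM_stmt) : NAW_stmt := by
  intro k hk
  by_cases hk16 : k ≤ 1 / 16
  swap
  · exact ⟨1, le_rfl, fun ch e ζ ζ2 B hch hRg => ⟨1, le_rfl, fun R s t Γ D p hR hOK => absurd hOK.pot.kpos.2 hk16⟩⟩
  obtain ⟨CF, hCF, HF⟩ := hNFB k hk
  obtain ⟨CM, hCM, HM⟩ := hNFM k hk
  obtain ⟨C0, hC0, H0⟩ := hND0 k hk
  obtain ⟨CL, hCL, HL⟩ := hNLE k hk
  obtain ⟨CN, hCN, HN⟩ := hNNP k hk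
  obtain ⟨CU, hCU, HU⟩ := hNUB k hk
  obtain ⟨CR, hCR, HR⟩ := hNFR k hk
  have hS1 : 1 ≤ (1 + CF) * (CM + C0 + CL + CN + 8) := by nlinarith
  refine ⟨400 * ((1 + CF) * (CM + C0 + CL + CN + 8)), by linarith, ?_⟩
  intro ch e ζ ζ2 B hch hRg
  obtain ⟨he0, hζ0, hζζ2, hCe, hCζ⟩ := hRg
  have hζ2 : 0 < ζ2 := lt_of_lt_of_le hζ0 hζζ2
  have ha : 0 < CM * ζ2 := by positivity
  have hb : 0 < C0 * ζ2 := by positivity
  have hc : 0 < CL * ζ2 := by positivity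
  have hd : 0 < CN * ζ2 := by positivity
  have hf : 0 < CF * (CM * ζ2) := by positivity
  have hg : 0 < CF * (C0 * ζ2) := by positivity
  have hsum : 400 * (CM * ζ2 + C0 * ζ2 + CL * ζ2 + CN * ζ2 + 8 * ζ2 + CF * (CM * ζ2) + CF * (C0 * ζ2)) ≤ 1 := by
    have h1 : 0 ≤ CF * (CL * ζ2 + CN * ζ2 + 8 * ζ2) := by positivity
    have h2 : 400 * ((1 + CF) * (CM + C0 + CL + CN + 8)) * ζ2 =
      400 * (CM * ζ2 + C0 * ζ2 + CL * ζ2 + CN * ζ2 + 8 * ζ2 + CF * (CM * ζ2) + CF * (C0 * ζ2)) + 400 * (CF * (CL * ζ2 + CN * ζ2 + 8 * ζ2)) := by ring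
    linarith
  have hCX : ∀ x : ℝ, x ≤ CM + C0 + CL + CN + 8 → x * e ≤ ζ2 := by
    intro x hx
    refine le_trans (mul_le_mul_of_nonneg_right ?_ he0) hCe
    nlinarith
  have hMe : CM * e ≤ ζ2 := hCX _ (by linarith)
  have h0e : C0 * e ≤ ζ2 := hCX _ (by linarith)
  have hLe : CL * e ≤ ζ2 := hCX _ (by linarith)
  have hNe : CN * e ≤ ζ2 := hCX _ (by linarith)
  have he1 : e ≤ 1 := by
    have := hCX 1 (by linarith)
    linarith
  obtain ⟨K1, R1, hR1, HF1⟩ := HF (CM * ζ2) ha (by linarith)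
  obtain ⟨K2, R2, hR2, HF2⟩ := HF (C0 * ζ2) hb (by linarith)
  obtain ⟨R3, hR3, HM1⟩ := HM ch K1 e ζ ζ2 B hch ⟨he0, hζ0, hζζ2, hMe, by linarith⟩
  obtain ⟨R4, hR4, HD0⟩ := H0 ch K2 e ζ ζ2 ζ2 2 hch ⟨he0, hζ0, hζζ2, h0e, by linarith⟩ le_rfl (by linarith)
  obtain ⟨R5, hR5, HQ⟩ := hNQA ch ζ k hch hk hζ0 (by linarith)
  obtain ⟨R6, hR6, HQS⟩ := hNQS ch ζ k hch hk hζ0 (by linarith)
  obtain ⟨R7, hR7, HEL⟩ := hNEL ch ζ k CU hch hk hk16 hζ0 (by linarith)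
  obtain ⟨R8, hR8, HL1⟩ := HL ch e ζ ζ2 B hch ⟨he0, hζ0, hζζ2, hLe, by linarith⟩
  obtain ⟨R9, hR9, HN1⟩ := HN ch e ζ ζ2 B hch ⟨he0, hζ0, hζζ2, hNe, by linarith⟩
  obtain ⟨R10, hR10, Hnum⟩ := NAW_num k hk
  refine ⟨R1 + R2 + R3 + R4 + R5 + R6 + R7 + R8 + R9 + R10, by linarith, ?_⟩
  intro R s t Γ D p hR hOK' hp hs0 ht0 hst
  obtain ⟨hW, hη, X, hX, hXp, hXe, hlogX⟩ := Hnum R (by linarith)
  have hR2' : 2 ≤ R := by linarith
  have hR1' : 1 ≤ R := by linarith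
  have hR0 : 0 < R := by linarith
  have hlog : 0 ≤ Real.log R := Real.log_nonneg hR1'
  have hX0 : 0 < X := by linarith
  have hOK : OKN ⊥ k B D := hNOX.1 Γ k B D hOK'
  have hDm := NAW_Dm
  obtain ⟨hPV, -, -, -, -, hLip, -⟩ := HU ⊥ B D.U hOK.pot
  have hpk : |p.2| ≤ k := NAW_win (by norm_num) hW hR0.le hp
  have hpG : p ∈ GW 2 R := by
    refine ⟨mem_univ _, ?_, ?_⟩
    · have h1 := hp.1
      have h2 : 0 ≤ R ^ (-(1 / 4) : ℝ) := Real.rpow_nonneg hR0.le _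
      linarith
    · have h1 := hp.2
      have h2 : 0 ≤ R ^ (-(1 / 4) : ℝ) := Real.rpow_nonneg hR0.le _
      linarith
  have htlog : t ≤ Real.log R := by nlinarith
  have hφ : ∀ r : ℝ, FH ⊥ univ (psi D ch ζ ζ2 R r p) ∧ QU.CD 2 (psi D ch ζ ζ2 R r p) := fun r =>
    hNOX.2 D ch ζ ζ2 R r k ⊥ B p hch hζ2 (by linarith) hR2' hOK hpk (hη ζ2 (by linarith))
  set φ0 : ℍ → ℂ := psi D ch ζ ζ2 R s p with hφ0
  obtain ⟨hφF, hφC⟩ := hφ s
  obtain ⟨-, -, -, hQF, hQs, -⟩ := HQS R ⊥ univ D.U (by linarith) hDm hPV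
  set v : SL(2, ℝ) × ℝ → ℂ := QF D.U ch ζ R φ0 with hv0
  have hv : FP ⊥ univ v := (hQF φ0 hφF).2
  have hnP : 0 ≤ nP univ 2 R v := integral_nonneg (fun p => by positivity)
  have hsabs : |s| ≤ e * Real.log R := by rw [abs_of_nonneg hs0]; linarith
  have hnφ : nn univ φ0 ≤ R ^ 2 := by
    have h1 := (HN1 R s ⊥ D p (by linarith) hOK hpk hs0 (by linarith)).1
    refine h1.trans ?_
    have h2 : R ^ (-(1 / 5) : ℝ) ≤ 1 := Real.rpow_le_one_of_one_le_of_nonpos hR1' (by norm_num)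
    have h3 : 2 * (R ^ 2 / (2 * Real.pi)) ≤ R ^ 2 := by
      have h4 := Real.pi_gt_three
      have h5 : R ^ 2 / (2 * Real.pi) ≤ R ^ 2 / 2 := by
        apply div_le_div_of_nonneg_left (by positivity) (by norm_num)
        linarith
      linarith
    have h6 : 0 ≤ R ^ 2 / (2 * Real.pi) := by positivity
    nlinarith
  have hQ1 := (HQ R ⊥ univ D.U (by linarith) hDm hPV).1 φ0 hφF
  have hnPR : nP univ 2 R v ≤ R ^ 2 := hQ1.1.trans hnφ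
  set N : ℝ := Real.sqrt (nP univ 2 R v) with hN
  have hN0 : 0 ≤ N := Real.sqrt_nonneg _
  have hN2 : N ^ 2 = nP univ 2 R v := Real.sq_sqrt hnP
  have hNR : N ≤ R := by
    have h1 : Real.sqrt (nP univ 2 R v) ≤ Real.sqrt (R ^ 2) := Real.sqrt_le_sqrt hnPR
    rwa [Real.sqrt_sq hR0.le] at h1
  -- the first part of the initial value
  have hA : nn univ (fun z => Qs D.U ch ζ R v z - φ0 z) ≤ (X ^ 31) ^ 2 := by
    have h2 := HEL R ⊥ univ D.U φ0 p.2 (by linarith) hDm hPV (fun g v hv => (hLip g v hv).2) hpk hφF hφC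
    have hle := HL1 R s ⊥ D p (by linarith) hOK hpk hsabs
    have hY : 0 ≤ R ^ (8 * ζ) * (R ^ (-4 : ℝ) * nn univ (fun z => QU.lap φ0 z - ((R ^ 2 * (D.U z + 2 * p.2) : ℝ) : ℂ) * φ0 z) + R ^ (-1 : ℝ) * nn univ φ0) := by
      have := NAW_nn (F := univ) (fun z => QU.lap φ0 z - ((R ^ 2 * (D.U z + 2 * p.2) : ℝ) : ℂ) * φ0 z)
      have := NAW_nn (F := univ) φ0
      positivity
    have h3 := NAW_loc hR0 hp (fun g => {E : ℝ | -(D.U (g • I) / 2) < E}) (fun g => measurableSet_Ioi) (dG univ) (QF D.U ch ζ R φ0) hY h2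
    refine (hQ1.2.trans h3).trans ?_
    have e1 : R ^ (-4 : ℝ) * nn univ (fun z => QU.lap φ0 z - ((R ^ 2 * (D.U z + 2 * p.2) : ℝ) : ℂ) * φ0 z) ≤ R ^ (1 + CL * ζ2) := by
      have h4 : R ^ (1 + CL * ζ2) = R ^ (-4 : ℝ) * R ^ (5 + CL * ζ2) := by
        rw [← Real.rpow_add hR0]
        congr 1
        ring
      rw [h4]
      exact mul_le_mul_of_nonneg_left hle (by positivity)
    have e2 : R ^ (-1 : ℝ) * nn univ φ0 ≤ R ^ (1 + CL * ζ2) := by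
      have h4 : R ^ (-1 : ℝ) * R ^ 2 = R ^ (1 : ℝ) := by
        rw [← Real.rpow_natCast, ← Real.rpow_add hR0]
        congr 1
        norm_num
      calc R ^ (-1 : ℝ) * nn univ φ0 ≤ R ^ (-1 : ℝ) * R ^ 2 := mul_le_mul_of_nonneg_left hnφ (by positivity)
        _ = R ^ (1 : ℝ) := h4
        _ ≤ R ^ (1 + CL * ζ2) := Real.rpow_le_rpow_of_exponent_le hR1' (by linarith)
    have e3 : R ^ (1 / 2 : ℝ) * (R ^ (8 * ζ) * R ^ (1 + CL * ζ2)) ≤ X ^ 61 := by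
      rw [← Real.rpow_add hR0, ← Real.rpow_add hR0]
      apply hXp
      push_cast
      linarith
    have e4 : R ^ (8 * ζ) * (R ^ (-4 : ℝ) * nn univ (fun z => QU.lap φ0 z - ((R ^ 2 * (D.U z + 2 * p.2) : ℝ) : ℂ) * φ0 z) + R ^ (-1 : ℝ) * nn univ φ0) ≤
        2 * (R ^ (8 * ζ) * R ^ (1 + CL * ζ2)) := by
      have h4 : 0 ≤ R ^ (8 * ζ) := by positivity
      nlinarith
    have e5 : 0 ≤ R ^ (1 / 2 : ℝ) := by positivity
    have e6 := mul_le_mul_of_nonneg_left e4 e5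
    have e7 : 0 < X ^ 61 := by positivity
    have e8 : (X ^ 31) ^ 2 = X * X ^ 61 := by ring
    rw [e8]
    nlinarith
  have hsA : Real.sqrt (nn univ (fun z => Qs D.U ch ζ R v z - φ0 z)) ≤ X ^ 31 := by
    have h1 := Real.sqrt_le_sqrt hA
    rwa [Real.sqrt_sq (by positivity)] at h1
  -- the synthesised beams
  obtain ⟨b, g1, g2, g3, g4, g5, g6⟩ := hNFD ch ζ ζ2 R k ⊥ univ B D v hch hζ0 hζζ2 (by linarith) (hη ζ2 (by linarith)) hW hR2' hDm hOK hv t ht0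
  -- the families
  have hM := fun (r : ℝ) (hr : |r| ≤ e * Real.log R) => HM1 R r ⊥ D (by linarith) hOK hr
  have h0abs : |(0 : ℝ)| ≤ e * Real.log R := by rw [abs_zero]; positivity
  have hM0 := hM 0 h0abs
  set f0 : SL(2, ℝ) × ℝ → ℂ → ℂ := fun p u => pv D ch ζ ζ2 R 0 p u - fG D ch ζ R p u with hf0
  have hfa0 : FaN ⊥ k D K2 (C0 * ζ2) (R ^ (-2 : ℝ)) R 0 f0 := by
    refine ⟨hM0.1.cont.sub hM0.2.2.1.cont, ?_, ?_⟩
    · intro γ p
      funext u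
      show pv D ch ζ ζ2 R 0 ((γ : SL(2, ℝ)) * p.1, p.2) u - fG D ch ζ R ((γ : SL(2, ℝ)) * p.1, p.2) u = _
      rw [hM0.1.inv γ p, hM0.2.2.1.inv γ p]
    · intro p hp
      rw [hOK.fl0 p.2 p.1]
      exact (HD0 R ⊥ B D p 0 (by linarith) hOK (NAW_win le_rfl hW hR0.le hp.2) h0abs).1
  have hNFR' : ∀ (Γ : Subgroup SL(2, ℝ)) (F : Set ℍ) (B : ℕ → ℝ) (D : Dyn) (K : ℕ) (η m R t : ℝ) (f : SL(2, ℝ) × ℝ → ℂ → ℂ), Dm Γ F → OKN Γ k B D → 0 < η → η ≤ 1 / 4 → 0 ≤ m → R ^ (-(1 / 2) + η) ≤ 1 / 4 → 2 * R ^ (-(1 / 4) : ℝ) ≤ k → 1 ≤ R → FaN Γ k D K η m R t f →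
      ContinuousOn (fun x : (SL(2, ℝ) × ℝ) × ℍ => pF D t f x.1 x.2) {x | |x.1.2| ≤ k} ∧ (∀ p ∈ GW 2 R, ∀ z, ‖pF D t f p z‖ ≤ m ∧ (pF D t f p z ≠ 0 → dist (D.fl p.2 t p.1 • I : ℍ) z ≤ 1 ∧ dist (p.1 • I : ℍ) z ≤ CR * |t| + 1)) := by
    intro Γ F B D K η m R t f a1 a2 a3 a4 a5 a6 a7 a8 a9
    have := HR Γ F B D K η m R t f a1 a2 a3 a4 a5 a6 a7 a8 a9
    exact ⟨this.1, this.2.1⟩
  have hJ0 : (fun z => (∫ q in GW 2 R, v q * psi D ch ζ ζ2 R 0 q z ∂mP) - Qs D.U ch ζ R v z) = sF D R 0 f0 v := by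
    funext z
    have i1 := NAW_int hk16 hVDM hNFR' hDm hOK ha (by linarith) (by positivity) (hη _ (by linarith)) hW hR1' hM0.2.2.1 hv z
    have i2 := NAW_int hk16 hVDM hNFR' hDm hOK ha (by linarith) (by positivity) (hη _ (by linarith)) hW hR1' hM0.1 hv z
    unfold sF Qs
    simp only [hM0.2.2.2.2] at i1
    simp only [hM0.2.2.2.1] at i2
    rw [← integral_sub i2 i1]
    refine integral_congr_ae (Eventually.of_forall fun q => ?_)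
    show v q * psi D ch ζ ζ2 R 0 q z - v q * Gp D.U ch ζ R q z = v q * pF D 0 f0 q z
    rw [← mul_sub, ← hM0.2.2.2.2 q z]
    rfl
  have hsB : Real.sqrt (nn univ (fun z => (∫ q in GW 2 R, v q * psi D ch ζ ζ2 R 0 q z ∂mP) - Qs D.U ch ζ R v z)) ≤ 1 := by
    rw [hJ0]
    have k1 := (HF2 R (R ^ (-2 : ℝ)) 0 ⊥ univ B D f0 (by linarith) hDm hOK (by positivity) hfa0).1 v hv
    have k2 : (R ^ (-2 : ℝ) * R ^ (-(3 / 2) + CF * (C0 * ζ2))) ^ 2 * nP univ 2 R v ≤ 1 := by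
      rw [← hN2, ← mul_pow]
      have k3 : R ^ (-2 : ℝ) * R ^ (-(3 / 2) + CF * (C0 * ζ2)) * N ≤ 1 := by
        calc R ^ (-2 : ℝ) * R ^ (-(3 / 2) + CF * (C0 * ζ2)) * N ≤ R ^ (-2 : ℝ) * R ^ (-(3 / 2) + CF * (C0 * ζ2)) * R ^ (1 : ℝ) := by
              rw [Real.rpow_one]
              exact mul_le_mul_of_nonneg_left hNR (by positivity)
          _ = R ^ (-2 + (-(3 / 2) + CF * (C0 * ζ2)) + 1) := by rw [← Real.rpow_add hR0, ← Real.rpow_add hR0]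
          _ ≤ 1 := Real.rpow_le_one_of_one_le_of_nonpos hR1' (by linarith)
      exact pow_le_one₀ (by positivity) k3
    have k4 := Real.sqrt_le_sqrt (k1.trans k2)
    rwa [Real.sqrt_one] at k4
  have hcc := NAW_cc hNPR (ζ := ζ) (s := s) (t := t) hch hζ2 (by linarith) hR2' hOK hpk
  -- the moving beam
  set J : ℝ → ℍ → ℂ := fun r z => ∫ q in GW 2 R, v q * psi D ch ζ ζ2 R r q z ∂mP with hJ
  set P : ℝ → ℍ → ℂ := fun r z => psi D ch ζ ζ2 R (s + r) p z with hP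
  set G : ℝ → ℍ → ℂ := fun r z => Er D ch ζ ζ2 R (s + r) p (cd ((D.fl p.2 (s + r) p.1)⁻¹ • z)) with hG
  set Q : ℝ → ℍ → ℂ := fun r z => sF D R r (fun q => Er D ch ζ ζ2 R r q) v z with hQ
  have hfl : Continuous (fun r : ℝ => D.fl p.2 r p.1) := by
    have h1 : Continuous (fun r : ℝ => (p.2, r, p.1)) := by fun_prop
    exact hOK.cfl.comp_continuous h1 (fun r => hpk)
  have hrabs : ∀ r ∈ Icc 0 t, |s + r| ≤ e * Real.log R := by
    intro r hr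
    rw [abs_of_nonneg (by linarith [hr.1])]
    linarith [hr.2]
  have hPpk : ∀ r ∈ Icc 0 t, Pk K1 (CM * ζ2) (R ^ (3 / 2 + CM * ζ2)) R (rho D.U p.2 (D.fl p.2 (s + r) p.1)) (pv D ch ζ ζ2 R (s + r) p) := fun r hr =>
    (hM _ (hrabs r hr)).1.pk p hpG
  have hGpk : ∀ r ∈ Icc 0 t, Pk K1 (CM * ζ2) (R ^ (1 + CM * ζ2)) R (rho D.U p.2 (D.fl p.2 (s + r) p.1)) (Er D ch ζ ζ2 R (s + r) p) := fun r hr =>
    (hM _ (hrabs r hr)).2.1.pk p hpG
  have hRa : R ^ (-(1 / 2) + CM * ζ2) ≤ 1 / 4 := hη _ (by linarith)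
  obtain ⟨b2, hb2⟩ : ∃ b2 : ℝ, ∀ r ∈ Icc 0 t, dist (D.fl p.2 (s + r) p.1 • I : ℍ) I ≤ b2 := by
    have h1 : Continuous (fun r : ℝ => dist (D.fl p.2 (s + r) p.1 • I : ℍ) I) :=
      ((hfl.comp (continuous_const.add continuous_id)).smul continuous_const).dist continuous_const
    obtain ⟨b2, hb2⟩ := (isCompact_Icc (a := (0 : ℝ)) (b := t)).bddAbove_image h1.continuousOn
    exact ⟨b2, fun r hr => hb2 ⟨r, hr, rfl⟩⟩
  have hsupp : ∀ r ∈ Icc 0 t, ∀ z : ℍ, (P r z ≠ 0 ∨ G r z ≠ 0) → dist z I ≤ b2 + 1 / 2 := by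
    intro r hr z hz
    have h1 : ‖cd ((D.fl p.2 (s + r) p.1)⁻¹ • z)‖ ≤ 1 / 4 := by
      rcases hz with hz | hz
      · exact (NAW_pk (hPpk r hr) hRa).2 _ hz
      · exact (NAW_pk (hGpk r hr) hRa).2 _ hz
    have h2 := NAW_dist _ _ h1
    have h3 := dist_triangle z (D.fl p.2 (s + r) p.1 • I : ℍ) I
    have h4 := hb2 r hr
    linarith
  have hGF : ∀ r ∈ Icc 0 t, FH ⊥ univ (G r) := by
    intro r hr
    refine NAW_FH ?_ ⟨b2 + 1 / 2, fun z hz => hsupp r hr z (Or.inr hz)⟩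
    have h1 := (NAW_pk (hGpk r hr) hRa).1
    exact h1.comp (VCD_cont.comp (continuous_const_smul _))
  have hPF : ∀ r : ℝ, FH ⊥ univ (P r) ∧ QU.CD 2 (P r) := fun r => hφ (s + r)
  set ε : ℝ := 4 * X ^ 21 with hε
  have hε0 : 0 ≤ ε := by positivity
  have hEr : ∀ r ∈ Icc 0 t, nn univ (fun z => -(Complex.I * Q r z) + Complex.I * G r z) ≤ ε ^ 2 := by
    intro r hr
    have hr' : |r| ≤ e * Real.log R := by rw [abs_of_nonneg hr.1]; linarith [hr.2]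
    have hFQ : FH ⊥ univ (Q r) := (g1 r hr).2.2
    have hFQ' : FH ⊥ univ (fun z => -(Complex.I * Q r z)) := by
      have := NAW_mul (-Complex.I) hFQ
      simpa only [neg_mul] using this
    have hm := VSA_mink hDm hFQ' (NAW_mul Complex.I (hGF r hr))
    rw [NAW_neg, NAW_nnI] at hm
    have k1 := (HF1 R (R ^ (1 + CM * ζ2)) r ⊥ univ B D (Er D ch ζ ζ2 R r) (by linarith) hDm hOK (by positivity) (hM r hr').2.1).1 v hv
    have k2 : Real.sqrt (nn univ (Q r)) ≤ X ^ 21 := by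
      have k3 : (R ^ (1 + CM * ζ2) * R ^ (-(3 / 2) + CF * (CM * ζ2))) ^ 2 * nP univ 2 R v ≤ (X ^ 21) ^ 2 := by
        rw [← hN2, ← mul_pow]
        refine pow_le_pow_left₀ (by positivity) ?_ 2
        calc R ^ (1 + CM * ζ2) * R ^ (-(3 / 2) + CF * (CM * ζ2)) * N ≤ R ^ (1 + CM * ζ2) * R ^ (-(3 / 2) + CF * (CM * ζ2)) * R ^ (1 : ℝ) := by
              rw [Real.rpow_one]
              exact mul_le_mul_of_nonneg_left hNR (by positivity)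
          _ = R ^ (1 + CM * ζ2 + (-(3 / 2) + CF * (CM * ζ2)) + 1) := by rw [← Real.rpow_add hR0, ← Real.rpow_add hR0]
          _ ≤ X ^ 21 := hXp _ 21 (by push_cast; linarith)
      have k4 := Real.sqrt_le_sqrt (k1.trans k3)
      rwa [Real.sqrt_sq (by positivity)] at k4
    have k5 : Real.sqrt (nn univ (G r)) ≤ 3 * X ^ 21 := by
      have k6 := (HN1 R (s + r) ⊥ D p (by linarith) hOK hpk (by linarith [hr.1]) (by linarith [hr.2])).2.2.2.2 K1 (CM * ζ2) (R ^ (1 + CM * ζ2))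
        (rho D.U p.2 (D.fl p.2 (s + r) p.1)) (Er D ch ζ ζ2 R (s + r) p) (D.fl p.2 (s + r) p.1) ha (by linarith) (by positivity) hRa (hGpk r hr)
      have k7 : R ^ (1 + CM * ζ2) * R ^ (-(1 / 2) + CM * ζ2) ≤ X ^ 21 := by
        rw [← Real.rpow_add hR0]
        exact hXp _ 21 (by push_cast; linarith)
      have k8 : nn univ (G r) ≤ (3 * X ^ 21) ^ 2 := by
        refine k6.trans ?_
        have k9 : (R ^ (1 + CM * ζ2) * R ^ (-(1 / 2) + CM * ζ2)) ^ 2 ≤ (X ^ 21) ^ 2 := pow_le_pow_left₀ (by positivity) k7 2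
        nlinarith [sq_nonneg (X ^ 21)]
      have k9 := Real.sqrt_le_sqrt k8
      rwa [Real.sqrt_sq (by positivity)] at k9
    have k10 : Real.sqrt (nn univ (fun z => -(Complex.I * Q r z) + Complex.I * G r z)) ≤ ε := by
      rw [hε]
      linarith
    rw [← Real.sq_sqrt (NAW_nn (F := univ) (fun z => -(Complex.I * Q r z) + Complex.I * G r z))]
    exact pow_le_pow_left₀ (Real.sqrt_nonneg _) k10 2
  -- the energy estimate
  have hen := hNEN ⊥ univ D.U k R t ε (max b (b2 + 1 / 2)) (fun r z => J r z - P r z) (fun r z => -(Complex.I * Q r z) + Complex.I * G r z) hDm hk hPV hR1' ht0 hε0 ?_ ?_ ?_ ?_ ?_ ?_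
  · have hmink := VSA_mink hDm (NAW_sub (hQs v hv) hφF) (NAW_sub (g1 0 ⟨le_rfl, ht0⟩).1 (hQs v hv))
    have hw0 : (fun z => (Qs D.U ch ζ R v z - φ0 z) + (J 0 z - Qs D.U ch ζ R v z)) = fun z => J 0 z - P 0 z := by
      funext z
      have h1 : P 0 z = φ0 z := by
        show psi D ch ζ ζ2 R (s + 0) p z = psi D ch ζ ζ2 R s p z
        rw [add_zero]
      rw [h1]
      ring
    have hm2 : Real.sqrt (nn univ (fun z => J 0 z - P 0 z)) ≤ X ^ 31 + 1 := by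
      rw [← hw0]
      exact hmink.trans (add_le_add hsA hsB)
    have hfin : Real.sqrt (nn univ (fun z => J t z - P t z)) ≤ X ^ 32 := by
      refine hen.trans ((add_le_add_left hm2 _).trans ?_)
      have h1 : t * ε ≤ (40 * X) * (4 * X ^ 21) := mul_le_mul (htlog.trans hlogX) le_rfl hε0 (by positivity)
      have h2 : (1 : ℝ) ≤ X ^ 31 := one_le_pow₀ (by linarith)
      have h3 : (40 * X) * (4 * X ^ 21) ≤ 160 * X ^ 31 := by
        have h4 : X ^ 22 ≤ X ^ 31 := pow_le_pow_right₀ (by linarith) (by norm_num)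
        have h5 : (40 * X) * (4 * X ^ 21) = 160 * X ^ 22 := by ring
        linarith
      have h6 : X ^ 32 = X * X ^ 31 := by ring
      rw [h6]
      nlinarith
    have h64 : X ^ 64 = R ^ (8 / 5 : ℝ) := by
      rw [hXe]
      norm_num
    have h7 : nn univ (fun z => J t z - P t z) ≤ X ^ 64 := by
      rw [← Real.sq_sqrt (NAW_nn (F := univ) (fun z => J t z - P t z))]
      calc Real.sqrt (nn univ (fun z => J t z - P t z)) ^ 2 ≤ (X ^ 32) ^ 2 := pow_le_pow_left₀ (Real.sqrt_nonneg _) hfin 2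
        _ = X ^ 64 := by ring
    rw [h64] at h7
    exact h7
  · intro r hr
    refine ⟨NAW_sub (g1 r hr).1 (hPF r).1, ?_, ?_, hEr r hr⟩
    · have h1 : QU.CD 2 (J r) := (g1 r hr).2.1
      have h2 : QU.CD 2 (P r) := (hPF r).2
      exact ContDiffOn.sub h1 h2
    · have hFQ' : FH ⊥ univ (fun z => -(Complex.I * Q r z)) := by
        have := NAW_mul (-Complex.I) (g1 r hr).2.2
        simpa only [neg_mul] using this
      exact NAW_add hFQ' (NAW_mul Complex.I (hGF r hr))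
  · intro r hr z _ hz
    by_cases h1 : J r z ≠ 0 ∨ Q r z ≠ 0
    · exact (g2 r hr z (mem_univ _) h1).trans (le_max_left _ _)
    · rw [not_or, not_not, not_not] at h1
      refine (hsupp r hr z ?_).trans (le_max_right _ _)
      rcases hz with hz | hz
      · left
        intro h2
        apply hz
        show J r z - P r z = 0
        rw [h1.1, h2, sub_zero]
      · right
        intro h2
        apply hz
        show -(Complex.I * Q r z) + Complex.I * G r z = 0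
        rw [h1.2, h2]
        simp
  · exact g3.sub hcc.1
  · exact (g4.sub hcc.2.1).congr (fun x hx => NAW_lap (g1 x.1 hx.1).2.1 (hPF x.1).2 x.2)
  · exact ((continuousOn_const.mul g5).neg).add (continuousOn_const.mul hcc.2.2)
  · intro r hr z
    have h1 := g6 r hr z
    have h2 := ((hNRM ch ζ ζ2 R k ⊥ B D p (s + r) hch hζ2 (by linarith) hR2' hOK hpk).2 z).2
    have h3 : HasDerivAt (fun r => P r z) (-(Complex.I * Hop D.U R (P r) z) - Complex.I * G r z) r := h2.comp_const_add s r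
    have h4 := h1.sub h3
    have h5 := NAW_Hop (g1 r hr).2.1 (hPF r).2 D.U R z
    have h6 : -(Complex.I * Hop D.U R (fun z => J r z - P r z) z) + (-(Complex.I * Q r z) + Complex.I * G r z) =
        (-(Complex.I * Hop D.U R (fun z => ∫ q in GW 2 R, v q * psi D ch ζ ζ2 R r q z ∂mP) z) + -(Complex.I * sF D R r (fun q => Er D ch ζ ζ2 R r q) v z)) -
        (-(Complex.I * Hop D.U R (P r) z) - Complex.I * G r z) := by
      have h7 : Hop D.U R (fun z => J r z - P r z) z = Hop D.U R (fun z => ∫ q in GW 2 R, v q * psi D ch ζ ζ2 R r q z ∂mP) z - Hop D.U R (P r) z := h5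
      rw [h7]
      have h8 : Q r z = sF D R r (fun q => Er D ch ζ ζ2 R r q) v z := rfl
      rw [h8]
      ring
    show HasDerivAt (fun r => J r z - P r z) (-(Complex.I * Hop D.U R (fun z => J r z - P r z) z) + (-(Complex.I * Q r z) + Complex.I * G r z)) r
    rw [h6]
    exact h4

end

end Pool.Agent.VN
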